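import Mathlib
import Pool.Agent.W544.FF.Defs

/-! Project FF (helper544), part GA1: the moments of the standard normal distribution. -/

set_option autoImplicit false

namespace Pool.Agent.W287.FF

open MeasureTheory ProbabilityTheory
open Pool.Agent.W544.FF (mom S_ga1)

/-- the moment generating function -/
noncomputable def M (t : ℝ) : ℝ := Real.exp (t ^ 2 / 2)

theorem M_contDiff : ContDiff ℝ (⊤ : ℕ∞) M := by
  unfold M
  fun_prop

theorem M_hasDerivAt (t : ℝ) : HasDerivAt M (t * M t) t := by
  unfold M
  have h : HasDerivAt (fun t : ℝ => t ^ 2 / 2) t t := by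
    have h1 := (hasDerivAt_pow 2 t).div_const 2
    have e : ((2 : ℕ) : ℝ) * t ^ (2 - 1) / 2 = t := by norm_num
    rw [e] at h1
    exact h1
  have h2 := h.exp
  rwa [mul_comm] at h2

theorem iter_hasDerivAt (n : ℕ) (t : ℝ) :
    HasDerivAt (iteratedDeriv n M) (iteratedDeriv (n + 1) M t) t := by
  have h : Differentiable ℝ (iteratedDeriv n M) :=
    M_contDiff.differentiable_iteratedDeriv n (by exact_mod_cast ENat.coe_lt_top n)
  rw [iteratedDeriv_succ]
  exact (h t).hasDerivAt

theorem iter_rec (n : ℕ) : ∀ t : ℝ, iteratedDeriv (n + 2) M t =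
    t * iteratedDeriv (n + 1) M t + ((n : ℝ) + 1) * iteratedDeriv n M t := by
  induction n with
  | zero =>
    intro t
    have h1 : iteratedDeriv 1 M = fun t => t * M t := by
      funext s
      rw [iteratedDeriv_one]
      exact (M_hasDerivAt s).deriv
    have h2 : HasDerivAt (fun t => t * M t) (1 * M t + t * (t * M t)) t :=
      (hasDerivAt_id t).mul (M_hasDerivAt t)
    have h3 := iter_hasDerivAt 1 t
    rw [h1] at h3
    have h4 := h3.unique h2
    show iteratedDeriv (1 + 1) M t = t * iteratedDeriv 1 M t + (((0 : ℕ) : ℝ) + 1) * iteratedDeriv 0 M t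
    rw [h4, h1, iteratedDeriv_zero]
    push_cast
    ring
  | succ n ih =>
    intro t
    have h1 : iteratedDeriv (n + 2) M = fun t =>
        t * iteratedDeriv (n + 1) M t + ((n : ℝ) + 1) * iteratedDeriv n M t := funext ih
    have h2 : HasDerivAt (fun t =>
        t * iteratedDeriv (n + 1) M t + ((n : ℝ) + 1) * iteratedDeriv n M t)
        ((1 * iteratedDeriv (n + 1) M t + t * iteratedDeriv (n + 2) M t) +
          ((n : ℝ) + 1) * iteratedDeriv (n + 1) M t) t :=
      ((hasDerivAt_id t).mul (iter_hasDerivAt (n + 1) t)).add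
        ((iter_hasDerivAt n t).const_mul _)
    have h3 := iter_hasDerivAt (n + 2) t
    rw [h1] at h3
    have h4 := h3.unique h2
    show iteratedDeriv (n + 2 + 1) M t = t * iteratedDeriv (n + 2) M t +
      (((n + 1 : ℕ) : ℝ) + 1) * iteratedDeriv (n + 1) M t
    rw [h4]
    push_cast
    ring

theorem iter_zero : ∀ a : ℕ, iteratedDeriv a M 0 = mom a
  | 0 => by
    rw [iteratedDeriv_zero, mom]
    simp [M]
  | 1 => by
    rw [iteratedDeriv_one, (M_hasDerivAt 0).deriv, mom, zero_mul]
  | (a + 2) => by
    rw [iter_rec a 0, zero_mul, zero_add, mom, iter_zero a]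

theorem ga1 : S_ga1 := by
  refine ⟨gaussianReal 0 1, inferInstance, ?_, ?_, ?_⟩
  · intro U hU hne
    rw [pos_iff_ne_zero]
    intro h
    have h1 : (volume : Measure ℝ) U = 0 :=
      (gaussianReal_absolutelyContinuous' 0 one_ne_zero) h
    exact (hU.measure_pos volume hne).ne' h1
  · intro a
    exact integrable_pow_of_mem_interior_integrableExpSet (X := fun x : ℝ => x)
      (by rw [integrableExpSet_fun_id_gaussianReal, interior_univ]; exact Set.mem_univ _) a
  · intro a
    have h := iteratedDeriv_mgf_zero (X := fun x : ℝ => x) (μ := gaussianReal 0 1)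
      (by rw [integrableExpSet_fun_id_gaussianReal, interior_univ]; exact Set.mem_univ _) a
    have hM : mgf (fun x : ℝ => x) (gaussianReal 0 1) = M := by
      rw [mgf_fun_id_gaussianReal]
      funext t
      unfold M
      simp
    rw [hM, iter_zero a] at h
    rw [h]
    rfl

end Pool.Agent.W287.FF
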